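import Mathlib

/-!
# Completed L-functions of Hasse-Weil type
-/

set_option autoImplicit false

open Complex Polynomial
open scoped ComplexConjugate

namespace Pool.Agent.Zk2.HW

/-- `Λ` is a completed L-function of Hasse-Weil type of weight `i`, degree `D`, conductor `Q`, with the gamma factors
`Γ_ℝ(s - i/2 + μ_j)` and the local polynomials `P_p`, multiplied by `((s - i/2) (s - i/2 - 1))^r`. -/
structure IsHW (i N : ℕ) {D : ℕ} (r : ℕ) (Q : ℝ) (μ : Fin D → ℝ) (P : ℕ → ℂ[X]) (Λ : ℂ → ℂ) : Prop where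
  degree_pos : 1 ≤ D
  r_le : r ≤ D
  one_le : 1 ≤ Q
  gamma : ∀ j, 0 ≤ μ j
  constant : ∀ p : ℕ, p.Prime → (P p).coeff 0 = 1
  degree : ∀ p : ℕ, p.Prime → (P p).natDegree ≤ D
  roots : ∀ p : ℕ, p.Prime → ∀ z : ℂ, (P p).eval z = 0 → (p : ℝ) ^ (-(((i : ℝ) + 1) / 2)) ≤ ‖z‖
  pure : ∀ p : ℕ, p.Prime → ¬ p ∣ N → ∀ z : ℂ, (P p).eval z = 0 → (p : ℝ) ^ (-((i : ℝ) / 2)) ≤ ‖z‖
  entire : Differentiable ℂ Λ
  order : ∃ A ρ : ℝ, ∀ s : ℂ, ‖Λ s‖ ≤ Real.exp (A * (1 + ‖s‖) ^ ρ)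
  functional : ∃ ε : ℂ, ‖ε‖ = 1 ∧ ∀ s : ℂ, Λ s = ε * conj (Λ (i + 1 - conj s))
  euler : ∃ σ : ℝ, ∀ s : ℂ, σ ≤ s.re → ∃ l : ℂ, HasProd (fun p : Nat.Primes => ((P p).eval (((p : ℕ) : ℂ) ^ (-s)))⁻¹) l ∧
    Λ s = ((s - (i : ℂ) / 2) * (s - (i : ℂ) / 2 - 1)) ^ r *
      ((Q : ℂ) ^ ((s - (i : ℂ) / 2) / 2) * ∏ j, Gammaℝ (s - (i : ℂ) / 2 + μ j)) * l

/-- products -/
theorem IsHW.mul {i N₁ N₂ : ℕ} {D₁ D₂ : ℕ} {r₁ r₂ : ℕ} {Q₁ Q₂ : ℝ} {μ₁ : Fin D₁ → ℝ} {μ₂ : Fin D₂ → ℝ} {P₁ P₂ : ℕ → ℂ[X]}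
    {Λ₁ Λ₂ : ℂ → ℂ} (h₁ : IsHW i N₁ r₁ Q₁ μ₁ P₁ Λ₁) (h₂ : IsHW i N₂ r₂ Q₂ μ₂ P₂ Λ₂) :
    IsHW i (N₁ * N₂) (r₁ + r₂) (Q₁ * Q₂) (Fin.append μ₁ μ₂) (fun p => P₁ p * P₂ p) (fun s => Λ₁ s * Λ₂ s) where
  degree_pos := le_add_right h₁.degree_pos
  r_le := add_le_add h₁.r_le h₂.r_le
  one_le := one_le_mul_of_one_le_of_one_le h₁.one_le h₂.one_le
  gamma := fun j => by
    refine Fin.addCases (fun j => ?_) (fun j => ?_) j
    · rw [Fin.append_left]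
      exact h₁.gamma j
    · rw [Fin.append_right]
      exact h₂.gamma j
  constant := fun p hp => by
    rw [Polynomial.mul_coeff_zero, h₁.constant p hp, h₂.constant p hp, mul_one]
  degree := fun p hp => Polynomial.natDegree_mul_le.trans (add_le_add (h₁.degree p hp) (h₂.degree p hp))
  roots := fun p hp z hz => by
    rw [Polynomial.eval_mul, mul_eq_zero] at hz
    exact hz.elim (h₁.roots p hp z) (h₂.roots p hp z)
  pure := fun p hp hN z hz => by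
    rw [Polynomial.eval_mul, mul_eq_zero] at hz
    exact hz.elim (h₁.pure p hp (fun h => hN (h.mul_right _)) z) (h₂.pure p hp (fun h => hN (h.mul_left _)) z)
  entire := h₁.entire.mul h₂.entire
  order := by
    obtain ⟨A₁, ρ₁, k₁⟩ := h₁.order
    obtain ⟨A₂, ρ₂, k₂⟩ := h₂.order
    refine ⟨|A₁| + |A₂|, max ρ₁ ρ₂, fun s => ?_⟩
    rw [norm_mul]
    have hs : 1 ≤ 1 + ‖s‖ := by linarith [norm_nonneg s]
    have e1 : A₁ * (1 + ‖s‖) ^ ρ₁ ≤ |A₁| * (1 + ‖s‖) ^ max ρ₁ ρ₂ :=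
      mul_le_mul (le_abs_self _) (Real.rpow_le_rpow_of_exponent_le hs (le_max_left _ _)) (by positivity) (abs_nonneg _)
    have e2 : A₂ * (1 + ‖s‖) ^ ρ₂ ≤ |A₂| * (1 + ‖s‖) ^ max ρ₁ ρ₂ :=
      mul_le_mul (le_abs_self _) (Real.rpow_le_rpow_of_exponent_le hs (le_max_right _ _)) (by positivity) (abs_nonneg _)
    refine (mul_le_mul (k₁ s) (k₂ s) (norm_nonneg _) (Real.exp_pos _).le).trans ?_
    rw [← Real.exp_add]
    exact Real.exp_le_exp.2 (by linarith)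
  functional := by
    obtain ⟨ε₁, a₁, b₁⟩ := h₁.functional
    obtain ⟨ε₂, a₂, b₂⟩ := h₂.functional
    refine ⟨ε₁ * ε₂, by rw [norm_mul, a₁, a₂, mul_one], fun s => ?_⟩
    rw [map_mul]
    linear_combination (Λ₂ s) * b₁ s + (ε₁ * conj (Λ₁ (i + 1 - conj s))) * b₂ s
  euler := by
    obtain ⟨σ₁, k₁⟩ := h₁.euler
    obtain ⟨σ₂, k₂⟩ := h₂.euler
    refine ⟨max σ₁ σ₂, fun s hs => ?_⟩
    obtain ⟨l₁, a₁, b₁⟩ := k₁ s ((le_max_left _ _).trans hs)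
    obtain ⟨l₂, a₂, b₂⟩ := k₂ s ((le_max_right _ _).trans hs)
    refine ⟨l₁ * l₂, ?_, ?_⟩
    · refine (a₁.mul a₂).congr_fun ?_
      intro p
      rw [Polynomial.eval_mul, mul_inv]
    · rw [b₁, b₂, Fin.prod_univ_add]
      simp only [Fin.append_left, Fin.append_right]
      rw [Complex.ofReal_mul, Complex.mul_cpow_ofReal_nonneg (by linarith [h₁.one_le]) (by linarith [h₂.one_le])]
      ring

end Pool.Agent.Zk2.HW
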